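import Pool.Agent.Work.MP_74021c_co.SB.Fin
import Pool.Agent.Work.MP_74021c_co.SB.End

/-!
The Delaunay triangulation of a finite planar point set in general position contains, for any two of
its points `p, q`, a path of length at most `(8/5) |pq|` all of whose edges have length at most
`|pq|`.
-/

set_option autoImplicit false

namespace Pool.Agent.Results.MP_74021c_co.BoundedEdges

open DT

/-- Any two points `p, q` of a finite set `S` of points of the plane in general position are joined
in the Delaunay triangulation of `S` by a path of length at most `(8/5) |pq|` all of whose edges
have length at most `|pq|`. -/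
theorem result (S : Finset Plane) (hS : GeneralPosition S) :
    ∀ p ∈ S, ∀ q ∈ S, ∃ W : (emptyCircleGraph S).Walk p q,
      walkLength W ≤ 8 / 5 * dist p q ∧ ∀ u v, s(u, v) ∈ W.edges → dist u v ≤ dist p q :=
  SB.of_SI SB.all_SI S hS

end Pool.Agent.Results.MP_74021c_co.BoundedEdges
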