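import Pool.Agent.Work.MP_74021c_co.Final

/-!
The stretch factor of every Delaunay triangulation of a finite planar point set is at most `8/5`.
-/

set_option autoImplicit false

namespace Pool.Agent.Results.MP_74021c_co.EightFifths

open DT

/-- Any two points `p, q` of a finite set `S` of points of the plane are joined in every Delaunay
triangulation of `S` by a path of length at most `(8/5) |pq|`. -/
theorem result (S : Finset Plane) (G : SimpleGraph Plane) (hG : IsDelaunay S G) :
    ∀ p ∈ S, ∀ q ∈ S, ∃ W : G.Walk p q, walkLength W ≤ 8 / 5 * dist p q :=
  stretch S G hG

end Pool.Agent.Results.MP_74021c_co.EightFifths
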