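import Pool.Agent.Work.MP_74021c_co.FDefs
import Pool.Agent.Work.MP_74021c_co.Low.All

/-!
# The stretch factor of Delaunay triangulations is larger than `1.5934`
-/

set_option autoImplicit false

namespace Pool.Agent.Results.MP_74021c_co.LowerBound

open DT

/-- There are a finite set `S` of points of the plane in general position and two points `p ≠ q`
of `S` such that every path (and every walk) from `p` to `q` in the Delaunay triangulation of `S`
is longer than `1.5934 |pq|`. -/
theorem result : ∃ (S : Finset Plane) (p q : Plane), GeneralPosition S ∧ p ∈ S ∧ q ∈ S ∧ p ≠ q ∧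
    (emptyCircleGraph S).Reachable p q ∧
    ∀ W : (emptyCircleGraph S).Walk p q, 1.5934 * dist p q < walkLength W := by
  have h := DLow.transfer _ DLow.bound
  have e : (((15934 : ℕ) : ℝ) / (10000 : ℕ)) = 1.5934 := by norm_num
  rw [e] at h
  exact h

end Pool.Agent.Results.MP_74021c_co.LowerBound
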